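import Mathlib
import Pool.Agent.H1.CM.Targets1

namespace Pool.Agent.H1.CM

open MvPolynomial

section RELDaux

variable {A C : Type} [CommRing A] [CommRing C]

theorem RELD_mul {p q : MvPolynomial (Fin 3) A} {m n k : ℕ} (hp : p.IsHomogeneous m)
    (hq : q.IsHomogeneous n) (h : m + n = k) : (p * q).IsHomogeneous k := h ▸ hp.mul hq

theorem RELD_sq {p : MvPolynomial (Fin 3) A} {m k : ℕ} (hp : p.IsHomogeneous m)
    (h : m + m = k) : (p ^ 2).IsHomogeneous k := by
  rw [sq]; exact RELD_mul hp hp h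

theorem RELD_C (a : A) {p : MvPolynomial (Fin 3) A} {m : ℕ} (hp : p.IsHomogeneous m) :
    (MvPolynomial.C a * p).IsHomogeneous m :=
  RELD_mul (isHomogeneous_C (Fin 3) a) hp (zero_add m)

theorem RELD_forms4 {P : Fin 4 → MvPolynomial (Fin 3) A} (h0 : (P 0).IsHomogeneous 4)
    (h1 : (P 1).IsHomogeneous 2) (h2 : P 2 = 0) (h3 : P 3 = 0) : Forms4 4 P := by
  have d0 : dgN 0 = 0 := rfl
  have d1 : dgN 1 = 2 := rfl
  have d2 : dgN 2 = 5 := rfl
  have d3 : dgN 3 = 7 := rfl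
  constructor
  · intro t ht
    match t with
    | 0 => rw [d0]; exact h0
    | 1 => rw [d1]; exact h1
    | 2 => rw [d2] at ht; omega
    | 3 => rw [d3] at ht; omega
  · intro t ht
    match t with
    | 0 => rw [d0] at ht; omega
    | 1 => rw [d1] at ht; omega
    | 2 => exact h2
    | 3 => exact h3

theorem RELD_forms10 {P : Fin 4 → MvPolynomial (Fin 3) A} (h0 : (P 0).IsHomogeneous 10)
    (h1 : (P 1).IsHomogeneous 8) (h2 : (P 2).IsHomogeneous 5) (h3 : (P 3).IsHomogeneous 3) :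
    Forms4 10 P := by
  have d0 : dgN 0 = 0 := rfl
  have d1 : dgN 1 = 2 := rfl
  have d2 : dgN 2 = 5 := rfl
  have d3 : dgN 3 = 7 := rfl
  constructor
  · intro t ht
    match t with
    | 0 => rw [d0]; exact h0
    | 1 => rw [d1]; exact h1
    | 2 => rw [d2]; exact h2
    | 3 => rw [d3]; exact h3
  · intro t ht
    match t with
    | 0 => rw [d0] at ht; omega
    | 1 => rw [d1] at ht; omega
    | 2 => rw [d2] at ht; omega
    | 3 => rw [d3] at ht; omega

theorem RELD_ev4 (ι : A →+* C) (q : Quad C) (p0 p1 p2 p3 : MvPolynomial (Fin 3) A) :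
    ev4 ι q ![p0, p1, p2, p3] = q.ev ι p0 + q.ev ι p1 * q.n + q.ev ι p2 * q.w +
      q.ev ι p3 * (q.n * q.w) := by
  unfold ev4
  rw [Fin.sum_univ_four]
  have e0 : q.e 0 = 1 := rfl
  have e1 : q.e 1 = q.n := rfl
  have e2 : q.e 2 = q.w := rfl
  have e3 : q.e 3 = q.n * q.w := rfl
  rw [e0, e1, e2, e3, mul_one]
  rfl

theorem RELD_ev4_zero (ι : A →+* C) (q : Quad C) :
    ev4 ι q (fun _ => (0 : MvPolynomial (Fin 3) A)) = 0 := by
  unfold ev4 Quad.ev
  simp

theorem RELD_lsub_hom (L : Fin 3 → Fin 3 → A) {p : MvPolynomial (Fin 3) A} {e : ℕ}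
    (hp : p.IsHomogeneous e) : (lsub L p).IsHomogeneous e := by
  have h : ∀ i : Fin 3, (∑ j : Fin 3, MvPolynomial.C (L i j) * MvPolynomial.X j :
      MvPolynomial (Fin 3) A).IsHomogeneous 1 := by
    intro i
    apply IsHomogeneous.sum
    intro j _
    have := (isHomogeneous_C (Fin 3) (L i j)).mul (isHomogeneous_X A j)
    simpa using this
  have := hp.aeval _ h
  rw [one_mul] at this
  exact this

theorem RELD_scale (ι : A →+* C) (v : Fin 3 → C) (lam : C) {p : MvPolynomial (Fin 3) A} {e : ℕ}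
    (hp : p.IsHomogeneous e) : eval₂ ι (fun i => lam * v i) p = lam ^ e * eval₂ ι v p := by
  rw [eval₂_eq', eval₂_eq', Finset.mul_sum]
  apply Finset.sum_congr rfl
  intro d hd
  have hdeg : ∑ i, d i = e := by
    have h1 := hp (mem_support_iff.1 hd)
    rw [← h1]
    simp [Finsupp.weight_apply, Finsupp.sum_fintype]
  have h2 : ∏ i, (lam * v i) ^ d i = lam ^ e * ∏ i, v i ^ d i := by
    rw [← hdeg, ← Finset.prod_pow_eq_pow_sum, ← Finset.prod_mul_distrib]
    exact Finset.prod_congr rfl fun i _ => mul_pow _ _ _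
  rw [h2]; ring

theorem RELD_ev {ι : A →+* C} {q q' : Quad C} {L : Fin 3 → Fin 3 → A} {lam : C} {u u' : A}
    {s r0 r1 : MvPolynomial (Fin 3) A} (h : Related ι q q' L lam u u' s r0 r1)
    {p : MvPolynomial (Fin 3) A} {e : ℕ} (hp : p.IsHomogeneous e) :
    q.ev ι (lsub L p) = lam ^ e * q'.ev ι p := by
  unfold Quad.ev lsub
  rw [← RELD_scale ι q'.vec lam hp]
  rw [show (bind₁ fun i => ∑ j : Fin 3, MvPolynomial.C (L i j) * MvPolynomial.X j) p =
    bind₁ (fun i => ∑ j : Fin 3, MvPolynomial.C (L i j) * MvPolynomial.X j) p from rfl]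
  have h1 := eval₂Hom_bind₁ ι q.vec (fun i => ∑ j : Fin 3, MvPolynomial.C (L i j) * MvPolynomial.X j) p
  simp only [coe_eval₂Hom] at h1
  rw [h1]
  congr 1
  funext i
  have hx := h.hx
  have hy := h.hy
  have hz := h.hz
  simp only [Fin.sum_univ_three, eval₂_add, eval₂_mul, eval₂_C, eval₂_X]
  fin_cases i
  · simp only [Quad.vec, Fin.zero_eta, Fin.isValue, Matrix.cons_val_zero, Matrix.cons_val_one,
      Matrix.cons_val, mul_one]
    rw [hx]
  · simp only [Quad.vec, Fin.mk_one, Fin.isValue, Matrix.cons_val_zero, Matrix.cons_val_one,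
      Matrix.cons_val, mul_one]
    rw [hy]
  · simp only [Quad.vec, Fin.reduceFinMk, Fin.isValue, Matrix.cons_val_zero, Matrix.cons_val_one,
      Matrix.cons_val, mul_one]
    rw [hz]

end RELDaux

theorem reld (h1 : T_UNQ) : T_RELD := by
  intro A C _ _ ι q q' h2 hinj D D' hD hD' hq hq' L lam u u' s r0 r1 hrel hs hr0 hr1 hu hu'
  have two_zero : (2 : MvPolynomial (Fin 3) A) = 0 := by
    have : MvPolynomial.C (2 : A) = (2 : MvPolynomial (Fin 3) A) := map_ofNat _ 2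
    rw [← this, h2, map_zero]
  have h2C : (2 : C) = 0 := by
    have : ι 2 = 2 := map_ofNat ι 2
    rw [← this, h2, map_zero]
  -- homogeneity
  have ha'' := RELD_lsub_hom L hD'.a
  have hc'' := RELD_lsub_hom L hD'.c
  have hb0'' := RELD_lsub_hom L hD'.b0
  have hb1'' := RELD_lsub_hom L hD'.b1
  have he0'' := RELD_lsub_hom L hD'.e0
  have he1'' := RELD_lsub_hom L hD'.e1
  have va := RELD_ev hrel hD'.a
  have vc := RELD_ev hrel hD'.c
  have vb0 := RELD_ev hrel hD'.b0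
  have vb1 := RELD_ev hrel hD'.b1
  have ve0 := RELD_ev hrel hD'.e0
  have ve1 := RELD_ev hrel hD'.e1
  obtain ⟨A2, hA2⟩ : ∃ A2, A2 = lsub L D'.a := ⟨_, rfl⟩
  obtain ⟨C2, hC2⟩ : ∃ C2, C2 = lsub L D'.c := ⟨_, rfl⟩
  obtain ⟨B0, hB0⟩ : ∃ B0, B0 = lsub L D'.b0 := ⟨_, rfl⟩
  obtain ⟨B1, hB1⟩ : ∃ B1, B1 = lsub L D'.b1 := ⟨_, rfl⟩
  obtain ⟨E0, hE0⟩ : ∃ E0, E0 = lsub L D'.e0 := ⟨_, rfl⟩
  obtain ⟨E1, hE1⟩ : ∃ E1, E1 = lsub L D'.e1 := ⟨_, rfl⟩
  rw [← hA2] at ha'' va ⊢
  rw [← hC2] at hc'' vc ⊢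
  rw [← hB0] at hb0'' vb0 ⊢
  rw [← hB1] at hb1'' vb1 ⊢
  rw [← hE0] at he0'' ve0 ⊢
  rw [← hE1] at he1'' ve1 ⊢
  have hn := hrel.hn
  have hw := hrel.hw
  have R1 := hq.r1
  have R2 := hq.r2
  have R1' := hq'.r1
  have R2' := hq'.r2
  -- evaluation lemmas
  have evadd := fun p p' => q.ev_add ι p p'
  have evmul := fun p p' => q.ev_mul ι p p'
  have evC := fun a => q.ev_C ι a
  have evsq : ∀ p, q.ev ι (p ^ 2) = q.ev ι p ^ 2 := by
    intro p; rw [sq, evmul, sq]
  -- the first relation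
  have first : (![MvPolynomial.C (u ^ 2) * D.c + s ^ 2 + A2 * s + C2,
      MvPolynomial.C (u ^ 2) * D.a + MvPolynomial.C u * A2, 0, 0] :
      Fin 4 → MvPolynomial (Fin 3) A) = fun _ => 0 := by
    apply h1 ι q hinj 4
    · apply RELD_forms4
      · exact (((RELD_C _ hD.c).add (RELD_sq hs rfl)).add (RELD_mul ha'' hs rfl)).add hc''
      · exact (RELD_C _ hD.a).add (RELD_C _ ha'')
      · rfl
      · rfl
    · exact ⟨fun t ht => isHomogeneous_zero _ _ _, fun t ht => rfl⟩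
    · rw [RELD_ev4, RELD_ev4_zero]
      have e0 : q.ev ι 0 = 0 := by unfold Quad.ev; simp
      rw [e0]
      simp only [evadd, evmul, evC, evsq, map_pow]
      rw [va, vc]
      linear_combination lam ^ 4 * R1' - (lam ^ 2 * q'.n + (ι u * q.n + q.ev ι s) +
        lam ^ 2 * q'.ev ι D'.a) * hn - ι u ^ 2 * R1 + (ι u ^ 2 * (q.ev ι D.a * q.n + q.ev ι D.c) -
        ι u * q.n * q.ev ι s) * h2C
  have f0 := congrFun first 0
  have f1 := congrFun first 1
  replace f0 : MvPolynomial.C (u ^ 2) * D.c + s ^ 2 + A2 * s + C2 = 0 := f0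
  replace f1 : MvPolynomial.C (u ^ 2) * D.a + MvPolynomial.C u * A2 = 0 := f1
  have cancel : ∀ {v : A}, IsUnit v → ∀ p : MvPolynomial (Fin 3) A, MvPolynomial.C v * p = 0 → p = 0 := by
    intro v hv p hp
    have : IsUnit (MvPolynomial.C v : MvPolynomial (Fin 3) A) := hv.map MvPolynomial.C
    exact (this.mul_right_eq_zero).1 hp
  have gA : A2 = MvPolynomial.C u * D.a := by
    have : MvPolynomial.C u * (MvPolynomial.C u * D.a + A2) = 0 := by
      rw [map_pow] at f1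
      linear_combination f1
    have := cancel hu _ this
    linear_combination this - MvPolynomial.C u * D.a * two_zero
  have gC : C2 = MvPolynomial.C (u ^ 2) * D.c + s ^ 2 + MvPolynomial.C u * D.a * s := by
    rw [gA] at f0
    linear_combination f0 - (MvPolynomial.C (u ^ 2) * D.c + s ^ 2 + MvPolynomial.C u * D.a * s) * two_zero
  -- the second relation
  have second : (![MvPolynomial.C (u' ^ 2) * D.e0 + r0 ^ 2 + r1 ^ 2 * D.c + (B0 + B1 * s) * r0 +
        MvPolynomial.C u * B1 * r1 * D.c + E0 + E1 * s,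
      MvPolynomial.C (u' ^ 2) * D.e1 + r1 ^ 2 * D.a + (B0 + B1 * s) * r1 +
        MvPolynomial.C u * B1 * r0 + MvPolynomial.C u * B1 * r1 * D.a + MvPolynomial.C u * E1,
      MvPolynomial.C (u' ^ 2) * D.b0 + MvPolynomial.C u' * (B0 + B1 * s),
      MvPolynomial.C (u' ^ 2) * D.b1 + MvPolynomial.C u' * (MvPolynomial.C u * B1)] :
      Fin 4 → MvPolynomial (Fin 3) A) = fun _ => 0 := by
    have hB0s : (B0 + B1 * s).IsHomogeneous 5 := hb0''.add (RELD_mul hb1'' hs rfl)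
    have huB1 : (MvPolynomial.C u * B1).IsHomogeneous 3 := RELD_C _ hb1''
    apply h1 ι q hinj 10
    · apply RELD_forms10
      · exact ((((((RELD_C _ hD.e0).add (RELD_sq hr0 rfl)).add
          (RELD_mul (RELD_sq hr1 rfl) hD.c rfl)).add (RELD_mul hB0s hr0 rfl)).add
          (RELD_mul (RELD_mul huB1 hr1 rfl) hD.c rfl)).add he0'').add (RELD_mul he1'' hs rfl)
      · exact (((((RELD_C _ hD.e1).add (RELD_mul (RELD_sq hr1 rfl) hD.a rfl)).add
          (RELD_mul hB0s hr1 rfl)).add (RELD_mul huB1 hr0 rfl)).add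
          (RELD_mul (RELD_mul huB1 hr1 rfl) hD.a rfl)).add (RELD_C _ he1'')
      · exact (RELD_C _ hD.b0).add (RELD_C _ hB0s)
      · exact (RELD_C _ hD.b1).add (RELD_C _ huB1)
    · exact ⟨fun t ht => isHomogeneous_zero _ _ _, fun t ht => rfl⟩
    · rw [RELD_ev4, RELD_ev4_zero]
      simp only [evadd, evmul, evC, evsq, map_pow]
      -- names
      obtain ⟨n, hn'⟩ : ∃ n, n = q.n := ⟨_, rfl⟩
      obtain ⟨w, hw'⟩ : ∃ w, w = q.w := ⟨_, rfl⟩
      obtain ⟨U, hU⟩ : ∃ U, U = ι u := ⟨_, rfl⟩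
      obtain ⟨V, hV⟩ : ∃ V, V = ι u' := ⟨_, rfl⟩
      rw [← hn', ← hw', ← hU, ← hV]
      rw [← hn'] at hn hw R1 R2
      rw [← hw'] at hw R2
      rw [← hU] at hn
      rw [← hV] at hw
      -- the relation for q'
      have key : (V * w + q.ev ι r0 + q.ev ι r1 * n) ^ 2 +
          (q.ev ι B0 + q.ev ι B1 * (U * n + q.ev ι s)) * (V * w + q.ev ι r0 + q.ev ι r1 * n) +
          (q.ev ι E0 + q.ev ι E1 * (U * n + q.ev ι s)) = 0 := by
        rw [vb0, vb1, ve0, ve1, ← hn, ← hw]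
        linear_combination lam ^ 10 * R2'
      linear_combination key - V ^ 2 * R2 - (q.ev ι r1 ^ 2 + U * q.ev ι B1 * q.ev ι r1) * R1
        + (V ^ 2 * ((q.ev ι D.b0 + q.ev ι D.b1 * n) * w + (q.ev ι D.e0 + q.ev ι D.e1 * n)) +
          (q.ev ι r1 ^ 2 + U * q.ev ι B1 * q.ev ι r1) * (q.ev ι D.a * n + q.ev ι D.c)
          - V * w * (q.ev ι r0 + q.ev ι r1 * n) - q.ev ι r0 * q.ev ι r1 * n) * h2C
  have s0 := congrFun second 0
  have s1 := congrFun second 1
  have s2 := congrFun second 2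
  have s3 := congrFun second 3
  replace s0 : MvPolynomial.C (u' ^ 2) * D.e0 + r0 ^ 2 + r1 ^ 2 * D.c + (B0 + B1 * s) * r0 +
        MvPolynomial.C u * B1 * r1 * D.c + E0 + E1 * s = 0 := s0
  replace s1 : MvPolynomial.C (u' ^ 2) * D.e1 + r1 ^ 2 * D.a + (B0 + B1 * s) * r1 +
        MvPolynomial.C u * B1 * r0 + MvPolynomial.C u * B1 * r1 * D.a + MvPolynomial.C u * E1 = 0 := s1
  replace s2 : MvPolynomial.C (u' ^ 2) * D.b0 + MvPolynomial.C u' * (B0 + B1 * s) = 0 := s2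
  replace s3 : MvPolynomial.C (u' ^ 2) * D.b1 + MvPolynomial.C u' * (MvPolynomial.C u * B1) = 0 := s3
  have gB1 : B1 * MvPolynomial.C u = MvPolynomial.C u' * D.b1 := by
    have : MvPolynomial.C u' * (MvPolynomial.C u' * D.b1 + MvPolynomial.C u * B1) = 0 := by
      rw [map_pow] at s3
      linear_combination s3
    have := cancel hu' _ this
    linear_combination this - MvPolynomial.C u' * D.b1 * two_zero
  have gB0 : B0 + B1 * s = MvPolynomial.C u' * D.b0 := by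
    have : MvPolynomial.C u' * (MvPolynomial.C u' * D.b0 + (B0 + B1 * s)) = 0 := by
      rw [map_pow] at s2
      linear_combination s2
    have := cancel hu' _ this
    linear_combination this - MvPolynomial.C u' * D.b0 * two_zero
  refine ⟨gA, gC, gB1, gB0, ?_, ?_⟩
  · linear_combination s1 - r1 * gB0 - (r0 + r1 * D.a) * gB1
  · linear_combination s0 - r0 * gB0 - (r1 * D.c) * gB1

end Pool.Agent.H1.CM
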