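import Mathlib
import Pool.Agent.H1.CM.Targets1

namespace Pool.Agent.H1.CM

open Polynomial

section STABaux

/-- coefficient `1` of a square in characteristic two -/
theorem STAB_sq1 {R : Type} [CommRing R] (h : (2 : R) = 0) (p : R[X]) : (p ^ 2).coeff 1 = 0 := by
  rw [sq, coeff_mul]
  simp only [Finset.Nat.antidiagonal_succ, Finset.Nat.antidiagonal_zero, Finset.map_singleton,
    Finset.sum_cons, Finset.sum_singleton, Function.Embedding.prodMap, Function.Embedding.coeFn_mk,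
    Prod.map, Function.Embedding.refl_apply, Nat.succ_eq_add_one, Nat.reduceAdd]
  linear_combination (p.coeff 0 * p.coeff 1) * h

theorem STAB_sq2 {R : Type} [CommRing R] (h : (2 : R) = 0) (p : R[X]) :
    (p ^ 2).coeff 2 = p.coeff 1 ^ 2 := by
  rw [sq, coeff_mul]
  simp only [Finset.Nat.antidiagonal_succ, Finset.Nat.antidiagonal_zero, Finset.map_singleton,
    Finset.sum_cons, Finset.sum_singleton, Function.Embedding.prodMap, Function.Embedding.coeFn_mk,
    Prod.map, Function.Embedding.refl_apply, Nat.succ_eq_add_one, Nat.reduceAdd, Finset.map_cons]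
  linear_combination (p.coeff 0 * p.coeff 2) * h

theorem STAB_sq0 {R : Type} [CommRing R] (p : R[X]) : (p ^ 2).coeff 0 = p.coeff 0 ^ 2 := by
  rw [sq, mul_coeff_zero, sq]

theorem STAB_sq3 {R : Type} [CommRing R] (h : (2 : R) = 0) (p : R[X]) : (p ^ 2).coeff 3 = 0 := by
  rw [sq, coeff_mul]
  simp only [Finset.Nat.antidiagonal_succ, Finset.Nat.antidiagonal_zero, Finset.map_singleton,
    Finset.sum_cons, Finset.sum_singleton, Function.Embedding.prodMap, Function.Embedding.coeFn_mk,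
    Prod.map, Function.Embedding.refl_apply, Nat.succ_eq_add_one, Nat.reduceAdd, Finset.map_cons]
  linear_combination (p.coeff 0 * p.coeff 3 + p.coeff 1 * p.coeff 2) * h

theorem STAB_lin0 {R : Type} [CommRing R] (a b : R) (m : ℕ) :
    ((C a * X + C b) ^ m).coeff 0 = b ^ m := by
  rw [coeff_zero_eq_eval_zero]
  simp

theorem STAB_lin1 {R : Type} [CommRing R] (a b : R) (m : ℕ) :
    ((C a * X + C b) ^ m).coeff 1 = m * b ^ (m - 1) * a := by
  have h := coeff_derivative ((C a * X + C b) ^ m) 0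
  simp only [zero_add, Nat.cast_zero, mul_one] at h
  rw [← h, coeff_zero_eq_eval_zero, derivative_pow]
  simp

/-- coefficients of `X^m * p` below `m` -/
theorem STAB_low {R : Type} [CommRing R] (p : R[X]) {m i : ℕ} (h : i < m) :
    (X ^ m * p).coeff i = 0 := by
  rw [coeff_X_pow_mul', if_neg (by omega)]

theorem STAB_quad {R : Type} [CommRing R] {a b c b' : R}
    (h : C a * X ^ 2 + C b * X + C c = (C b' * X : R[X])) : a = 0 ∧ b = b' ∧ c = 0 := by
  have h2 := congrArg (fun p => p.coeff 2) h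
  have h1 := congrArg (fun p => p.coeff 1) h
  have h0 := congrArg (fun p => p.coeff 0) h
  simp only [coeff_add, coeff_C_mul, coeff_X_pow, coeff_X, coeff_C] at h2 h1 h0
  norm_num at h2 h1 h0
  exact ⟨h2, h1, h0⟩

variable {k : Type} [Field k]

/-- a coefficient in one variable -/
theorem STAB_one {a : k} {m : ℕ}
    (h : MvPolynomial.C a * (MvPolynomial.X 0 : MvPolynomial (Fin 1) k) ^ m = 0) : a = 0 := by
  rcases mul_eq_zero.1 h with h | h
  · exact (map_eq_zero_iff _ (MvPolynomial.C_injective (Fin 1) k)).1 h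
  · exact absurd h (pow_ne_zero _ (MvPolynomial.X_ne_zero 0))

/-- the ring in `y, z` -/
abbrev STAB_S (k : Type) [Field k] := MvPolynomial (Fin 2) k

/-- elements of `k[y, z]` as polynomials in `y` -/
noncomputable def STAB_phi (k : Type) [Field k] : STAB_S k →+* (MvPolynomial (Fin 1) k)[X] :=
  (MvPolynomial.finSuccEquiv k 1 : STAB_S k →+* (MvPolynomial (Fin 1) k)[X])

theorem STAB_phi_C (a : k) : STAB_phi k (MvPolynomial.C a) = C (MvPolynomial.C a) := by
  simp [STAB_phi, MvPolynomial.finSuccEquiv_apply]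

theorem STAB_phi_y : STAB_phi k (MvPolynomial.X 0) = X := by
  unfold STAB_phi
  exact MvPolynomial.finSuccEquiv_X_zero

theorem STAB_phi_z : STAB_phi k (MvPolynomial.X 1) = C (MvPolynomial.X 0) := by
  unfold STAB_phi
  exact MvPolynomial.finSuccEquiv_X_succ (j := 0)

/-- elements of `k[x, y, z]` as polynomials in `x` -/
noncomputable def STAB_psi (k : Type) [Field k] : MvPolynomial (Fin 3) k →+* (STAB_S k)[X] :=
  (MvPolynomial.finSuccEquiv k 2 : MvPolynomial (Fin 3) k →+* (STAB_S k)[X])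

theorem STAB_psi_C (a : k) : STAB_psi k (MvPolynomial.C a) = C (MvPolynomial.C a) := by
  simp [STAB_psi, MvPolynomial.finSuccEquiv_apply]

theorem STAB_psi_x : STAB_psi k (MvPolynomial.X 0) = X := by
  unfold STAB_psi
  exact MvPolynomial.finSuccEquiv_X_zero

theorem STAB_psi_y : STAB_psi k (MvPolynomial.X 1) = C (MvPolynomial.X 0) := by
  unfold STAB_psi
  exact MvPolynomial.finSuccEquiv_X_succ (j := 0)

theorem STAB_psi_z : STAB_psi k (MvPolynomial.X 2) = C (MvPolynomial.X 1) := by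
  unfold STAB_psi
  exact MvPolynomial.finSuccEquiv_X_succ (j := 1)

theorem STAB_psi_inj {p : MvPolynomial (Fin 3) k} (h : STAB_psi k p = 0) : p = 0 := by
  unfold STAB_psi at h
  exact (map_eq_zero_iff _ (MvPolynomial.finSuccEquiv k 2).injective).1 h

theorem STAB_psi_deg (p : MvPolynomial (Fin 3) k) : (STAB_psi k p).natDegree ≤ p.totalDegree := by
  have h := MvPolynomial.natDegree_finSuccEquiv p
  have h2 := MvPolynomial.degreeOf_le_totalDegree p 0
  unfold STAB_psi
  exact h.le.trans h2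

/-- linear forms in `y, z` -/
theorem STAB_phi_lin (b c : k) : STAB_phi k (MvPolynomial.C b * MvPolynomial.X 0 +
    MvPolynomial.C c * MvPolynomial.X 1) =
    C (MvPolynomial.C b) * X + C (MvPolynomial.C c * MvPolynomial.X 0) := by
  rw [map_add, map_mul, map_mul, STAB_phi_C, STAB_phi_C, STAB_phi_y, STAB_phi_z, ← C_mul]

theorem STAB_linY {a b c : k} (h : MvPolynomial.C a * MvPolynomial.X 0 +
    MvPolynomial.C b * MvPolynomial.X 1 = (MvPolynomial.C c * MvPolynomial.X 0 : STAB_S k)) :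
    a = c ∧ b = 0 := by
  have h1 := congrArg (STAB_phi k) h
  rw [STAB_phi_lin, map_mul (STAB_phi k), STAB_phi_C, STAB_phi_y] at h1
  have h2 : C (0 : MvPolynomial (Fin 1) k) * X ^ 2 + C (MvPolynomial.C a) * X +
      C (MvPolynomial.C b * MvPolynomial.X 0) = C (MvPolynomial.C c) * X := by
    rw [C_0, zero_mul, zero_add]; exact h1
  obtain ⟨-, h3, h4⟩ := STAB_quad h2
  refine ⟨MvPolynomial.C_injective _ _ h3, STAB_one (m := 1) ?_⟩
  rw [pow_one]; exact h4

theorem STAB_prod {a b c d : k} (h : (MvPolynomial.C a * MvPolynomial.X 0 +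
    MvPolynomial.C b * MvPolynomial.X 1) * (MvPolynomial.C c * MvPolynomial.X 0 +
    MvPolynomial.C d * MvPolynomial.X 1) = (0 : STAB_S k)) :
    a * c = 0 ∧ a * d + b * c = 0 ∧ b * d = 0 := by
  have h1 := congrArg (STAB_phi k) h
  rw [map_mul, STAB_phi_lin, STAB_phi_lin, map_zero] at h1
  have h2 : C (MvPolynomial.C (a * c)) * X ^ 2 +
      C (MvPolynomial.C (a * d + b * c) * MvPolynomial.X 0) * X +
      C (MvPolynomial.C (b * d) * MvPolynomial.X 0 ^ 2) =
      C (0 : MvPolynomial (Fin 1) k) * X := by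
    rw [C_0, zero_mul, ← h1]
    simp only [map_mul, map_add, map_pow]
    ring
  obtain ⟨h3, h4, h5⟩ := STAB_quad h2
  refine ⟨(map_eq_zero_iff _ (MvPolynomial.C_injective (Fin 1) k)).1 h3, STAB_one (m := 1) ?_,
    STAB_one (m := 2) h5⟩
  rw [pow_one]; exact h4

theorem STAB_C {u2 v al ep nu : k} {rho : STAB_S k}
    (h : MvPolynomial.C u2 * MvPolynomial.X 1 ^ 9 + MvPolynomial.C v * (MvPolynomial.X 0 ^ 5 * rho) +
      MvPolynomial.C al * (MvPolynomial.C ep * MvPolynomial.X 0 +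
        MvPolynomial.C nu * MvPolynomial.X 1) ^ 9 = 0) :
    u2 + al * nu ^ 9 = 0 ∧ 9 * (al * ep * nu ^ 8) = 0 := by
  have h1 := congrArg (STAB_phi k) h
  simp only [map_add, map_mul, map_pow, map_zero] at h1
  rw [← map_mul (STAB_phi k) (MvPolynomial.C ep), ← map_mul (STAB_phi k) (MvPolynomial.C nu),
    ← map_add, STAB_phi_lin, STAB_phi_C, STAB_phi_C, STAB_phi_C, STAB_phi_y, STAB_phi_z] at h1
  constructor
  · have h2 := congrArg (fun p => p.coeff 0) h1
    simp only [coeff_add, coeff_C_mul, coeff_zero] at h2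
    rw [STAB_low _ (by norm_num), STAB_lin0, ← C_pow, coeff_C_zero] at h2
    apply STAB_one (m := 9)
    rw [map_add, map_mul, map_pow]
    linear_combination h2
  · have h2 := congrArg (fun p => p.coeff 1) h1
    simp only [coeff_add, coeff_C_mul, coeff_zero] at h2
    rw [STAB_low _ (by norm_num), STAB_lin1, ← C_pow, coeff_C_succ] at h2
    apply STAB_one (m := 8)
    simp only [map_mul, map_pow, map_ofNat]
    push_cast at h2
    linear_combination h2

theorem STAB_D {u2 v : k} {rho G : STAB_S k}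
    (h : MvPolynomial.C u2 * MvPolynomial.X 1 ^ 9 + MvPolynomial.C v * (MvPolynomial.X 0 ^ 5 * rho) +
      MvPolynomial.X 0 * G = 0) : u2 = 0 := by
  have h1 := congrArg (STAB_phi k) h
  simp only [map_add, map_mul, map_pow, map_zero] at h1
  rw [STAB_phi_C, STAB_phi_C, STAB_phi_y, STAB_phi_z] at h1
  have h2 := congrArg (fun p => p.coeff 0) h1
  simp only [coeff_add, coeff_C_mul, coeff_zero, coeff_X_mul_zero] at h2
  rw [STAB_low _ (by norm_num), ← C_pow, coeff_C_zero] at h2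
  apply STAB_one (m := 9)
  linear_combination h2

theorem STAB_E {a v : k} {rho : STAB_S k} {m : ℕ}
    (h : MvPolynomial.C v * (MvPolynomial.X 0 ^ 5 * rho) +
      MvPolynomial.C a * MvPolynomial.X 1 ^ m = 0) : a = 0 := by
  have h1 := congrArg (STAB_phi k) h
  simp only [map_add, map_mul, map_pow, map_zero] at h1
  rw [STAB_phi_C, STAB_phi_C, STAB_phi_y, STAB_phi_z] at h1
  have h2 := congrArg (fun p => p.coeff 0) h1
  simp only [coeff_add, coeff_C_mul, coeff_zero] at h2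
  rw [STAB_low _ (by norm_num), ← C_pow, coeff_C_zero] at h2
  apply STAB_one (m := m)
  linear_combination h2

theorem STAB_G {a v : k} {g : STAB_S k} {m : ℕ}
    (h : MvPolynomial.C a * MvPolynomial.X 1 ^ m = MvPolynomial.C v * (MvPolynomial.X 0 * g)) :
    a = 0 := by
  have h1 := congrArg (STAB_phi k) h
  simp only [map_mul, map_pow] at h1
  rw [STAB_phi_C, STAB_phi_C, STAB_phi_y, STAB_phi_z] at h1
  have h2 := congrArg (fun p => p.coeff 0) h1
  simp only [coeff_C_mul, coeff_X_mul_zero] at h2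
  rw [← C_pow, coeff_C_zero] at h2
  apply STAB_one (m := m)
  linear_combination h2

theorem STAB_F (h2k : (2 : k) = 0) {a b : k} {g : STAB_S k}
    (h : MvPolynomial.C a * (MvPolynomial.X 0 ^ 3 * MvPolynomial.X 1) +
      MvPolynomial.C b * (MvPolynomial.X 0 * MvPolynomial.X 1 ^ 3) = g ^ 2) : a = 0 ∧ b = 0 := by
  have h2Z : (2 : MvPolynomial (Fin 1) k) = 0 := by
    have : MvPolynomial.C (2 : k) = (2 : MvPolynomial (Fin 1) k) := map_ofNat _ 2
    rw [← this, h2k, map_zero]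
  have h1 := congrArg (STAB_phi k) h
  simp only [map_add, map_mul, map_pow] at h1
  rw [STAB_phi_C, STAB_phi_C, STAB_phi_y, STAB_phi_z] at h1
  have h3 : C (MvPolynomial.C a * MvPolynomial.X 0) * X ^ 3 +
      C (MvPolynomial.C b * MvPolynomial.X 0 ^ 3) * X = STAB_phi k g ^ 2 := by
    rw [← h1]
    simp only [map_mul, map_pow]
    ring
  constructor
  · have h4 := congrArg (fun p => p.coeff 3) h3
    simp only [coeff_add, coeff_C_mul, coeff_X_pow, coeff_X] at h4
    rw [STAB_sq3 h2Z] at h4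
    norm_num at h4
    exact h4
  · have h4 := congrArg (fun p => p.coeff 1) h3
    simp only [coeff_add, coeff_C_mul, coeff_X_pow, coeff_X] at h4
    rw [STAB_sq1 h2Z] at h4
    norm_num at h4
    exact h4

theorem STAB_char {R : Type} [CommRing R] {k : Type} [CommRing k] (f : k →+* R) (h : (2 : k) = 0) :
    (2 : R) = 0 := by
  have : f 2 = 2 := map_ofNat f 2
  rw [← this, h, map_zero]

theorem STAB_sq_inj {k : Type} [Field k] (h2 : (2 : k) = 0) {a b : k} (h : a ^ 2 = b ^ 2) :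
    a = b := by
  have : (a - b) ^ 2 = 0 := by linear_combination h + (b ^ 2 - a * b) * h2
  exact sub_eq_zero.1 (pow_eq_zero_iff (two_ne_zero)|>.1 this)

/-- The cubic form `r1` vanishes. -/
theorem STAB_r1 {k : Type} [Field k] (h2 : (2 : k) = 0) {u' c4 : k} (hu' : u' ≠ 0)
    {r1 : MvPolynomial (Fin 3) k} (hr1 : r1.IsHomogeneous 3)
    (h : MvPolynomial.C c4 * (MvPolynomial.X 0 ^ 4 * MvPolynomial.X 1 ^ 4) +
      r1 ^ 2 * (MvPolynomial.X 0 * MvPolynomial.X 1) +
      MvPolynomial.C u' * ((MvPolynomial.X 0 ^ 5 + MvPolynomial.X 1 ^ 5) * r1) = 0) : r1 = 0 := by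
  have h2S : (2 : STAB_S k) = 0 := STAB_char (MvPolynomial.C) h2
  apply STAB_psi_inj
  obtain ⟨R, hR⟩ : ∃ R, R = STAB_psi k r1 := ⟨_, rfl⟩
  have hdeg : R.natDegree ≤ 3 := by
    rw [hR]; exact (STAB_psi_deg r1).trans hr1.totalDegree_le
  have h1 := congrArg (STAB_psi k) h
  simp only [map_add, map_mul, map_pow, map_zero] at h1
  rw [STAB_psi_C, STAB_psi_C, STAB_psi_x, STAB_psi_y, ← hR] at h1
  rw [← hR]
  have h3 : X ^ 4 * (C (MvPolynomial.C c4 * MvPolynomial.X 0 ^ 4)) +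
      C (MvPolynomial.X 0) * (X * R ^ 2) + X ^ 5 * (C (MvPolynomial.C u') * R) +
      C (MvPolynomial.C u' * MvPolynomial.X 0 ^ 5) * R = 0 := by
    rw [← h1]
    simp only [map_mul, map_pow]
    ring
  have hne : (MvPolynomial.C u' * MvPolynomial.X 0 ^ 5 : STAB_S k) ≠ 0 := by
    apply mul_ne_zero
    · intro h0
      exact hu' ((map_eq_zero_iff _ (MvPolynomial.C_injective (Fin 2) k)).1 h0)
    · exact pow_ne_zero _ (MvPolynomial.X_ne_zero 0)
  have step : ∀ m, m < 4 → (X * R ^ 2).coeff m = 0 → R.coeff m = 0 := by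
    intro m hm h0
    have h4 := congrArg (fun p => p.coeff m) h3
    simp only [coeff_add, coeff_zero] at h4
    rw [STAB_low _ hm, STAB_low _ (by omega), coeff_C_mul, coeff_C_mul, h0] at h4
    simp only [mul_zero, zero_add] at h4
    exact (mul_eq_zero.1 h4).resolve_left hne
  have c0 : R.coeff 0 = 0 := step 0 (by norm_num) (by rw [coeff_X_mul_zero])
  have c1 : R.coeff 1 = 0 := step 1 (by norm_num) (by rw [coeff_X_mul, STAB_sq0, c0]; ring)
  have c2 : R.coeff 2 = 0 := step 2 (by norm_num) (by rw [coeff_X_mul, STAB_sq1 h2S])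
  have c3 : R.coeff 3 = 0 := step 3 (by norm_num) (by rw [coeff_X_mul, STAB_sq2 h2S, c1]; ring)
  ext1 m
  rw [coeff_zero]
  rcases Nat.lt_or_ge m 4 with hm | hm
  · interval_cases m
    · exact c0
    · exact c1
    · exact c2
    · exact c3
  · exact coeff_eq_zero_of_natDegree_lt (by omega)

theorem stab : T_STAB := by
  intro k _ h2 L u u' s r0 r1 hs hr0 hr1 hu hu' D e1 e2 e3 e4 e5
  have h2S : (2 : STAB_S k) = 0 := STAB_char (MvPolynomial.C) h2
  have h2M : (2 : MvPolynomial (Fin 3) k) = 0 := STAB_char (MvPolynomial.C) h2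
  obtain ⟨l, hl⟩ : ∃ l : Fin 3 → MvPolynomial (Fin 3) k, ∀ i, l i =
      MvPolynomial.C (L i 0) * MvPolynomial.X 0 + MvPolynomial.C (L i 1) * MvPolynomial.X 1 +
        MvPolynomial.C (L i 2) * MvPolynomial.X 2 := ⟨_, fun i => rfl⟩
  have hD : D = std 0 := rfl
  clear_value D
  subst hD
  have hbind : ∀ i, (MvPolynomial.bind₁ (fun i => ∑ j : Fin 3, MvPolynomial.C (L i j) *
      MvPolynomial.X j)) (MvPolynomial.X i) = l i := by
    intro i
    rw [MvPolynomial.bind₁_X_right, Fin.sum_univ_three, hl]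
  -- the substituted data
  have la : lsub L (std (0 : k)).a = l 0 * l 1 := by
    simp only [lsub, std, map_mul, hbind]
  have lc : lsub L (std (0 : k)).c = l 0 ^ 3 * l 2 + l 1 ^ 3 * l 2 + l 0 * l 2 ^ 3 + l 1 * l 2 ^ 3 := by
    simp only [lsub, std, cStd, map_mul, map_add, map_pow, hbind]
  have le1 : lsub L (std (0 : k)).e1 = l 0 ^ 4 * l 1 ^ 4 := by
    simp only [lsub, std, map_mul, map_pow, hbind, sub_zero, map_one, one_mul]
  have le0 : lsub L (std (0 : k)).e0 = l 0 * l 2 ^ 9 + l 0 ^ 10 + l 0 ^ 3 * l 1 ^ 3 * lsub L (std (0 : k)).c := by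
    rw [lc]
    simp only [lsub, std, eStd, cStd, map_mul, map_add, map_sub, map_pow, hbind, map_zero, zero_mul, sub_zero]
  have da : (std (0 : k)).a = MvPolynomial.X 0 * MvPolynomial.X 1 := rfl
  have dc : (std (0 : k)).c = cStd k := rfl
  have db0 : (std (0 : k)).b0 = MvPolynomial.X 0 ^ 5 + MvPolynomial.X 1 ^ 5 := by
    simp only [std, sub_zero, map_one, one_mul]
  have de1 : (std (0 : k)).e1 = MvPolynomial.X 0 ^ 4 * MvPolynomial.X 1 ^ 4 := by
    simp only [std, sub_zero, map_one, one_mul]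
  have de0 : (std (0 : k)).e0 = MvPolynomial.X 0 * MvPolynomial.X 2 ^ 9 + MvPolynomial.X 0 ^ 10 +
      MvPolynomial.X 0 ^ 3 * MvPolynomial.X 1 ^ 3 * cStd k := by
    simp only [std, eStd, map_zero, zero_mul, sub_zero]
  rw [la, da] at e1
  rw [le1, de1, da, db0] at e4
  rw [le1, le0, de0, dc, db0] at e5
  -- (i)
  have hpsil : ∀ i, STAB_psi k (l i) = C (MvPolynomial.C (L i 0)) * X +
      C (MvPolynomial.C (L i 1) * MvPolynomial.X 0 + MvPolynomial.C (L i 2) * MvPolynomial.X 1) := by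
    intro i
    rw [hl i]
    simp only [map_add, map_mul]
    rw [STAB_psi_C, STAB_psi_C, STAB_psi_C, STAB_psi_x, STAB_psi_y, STAB_psi_z]
    ring
  have p1 := congrArg (STAB_psi k) e1
  rw [map_mul, map_mul, map_mul, hpsil, hpsil, STAB_psi_C, STAB_psi_x, STAB_psi_y] at p1
  have p2 : C (MvPolynomial.C (L 0 0) * MvPolynomial.C (L 1 0)) * X ^ 2 +
      C (MvPolynomial.C (L 0 0) * (MvPolynomial.C (L 1 1) * MvPolynomial.X 0 + MvPolynomial.C (L 1 2) * MvPolynomial.X 1) +
        MvPolynomial.C (L 1 0) * (MvPolynomial.C (L 0 1) * MvPolynomial.X 0 + MvPolynomial.C (L 0 2) * MvPolynomial.X 1)) * X +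
      C ((MvPolynomial.C (L 0 1) * MvPolynomial.X 0 + MvPolynomial.C (L 0 2) * MvPolynomial.X 1) *
        (MvPolynomial.C (L 1 1) * MvPolynomial.X 0 + MvPolynomial.C (L 1 2) * MvPolynomial.X 1)) =
      (C (MvPolynomial.C u * MvPolynomial.X 0) * X : (STAB_S k)[X]) := by
    have e : (C (MvPolynomial.C u * MvPolynomial.X 0) * X : (STAB_S k)[X]) =
        C (MvPolynomial.C u) * (X * C (MvPolynomial.X 0)) := by
      rw [C_mul]; ring
    rw [e, ← p1]
    simp only [C_mul, C_add]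
    ring
  obtain ⟨q1, q2, q3⟩ := STAB_quad p2
  have exx : L 0 0 * L 1 0 = 0 := by
    rw [← map_mul] at q1
    exact (map_eq_zero_iff _ (MvPolynomial.C_injective (Fin 2) k)).1 q1
  obtain ⟨exy, exz⟩ : L 0 0 * L 1 1 + L 1 0 * L 0 1 = u ∧ L 0 0 * L 1 2 + L 1 0 * L 0 2 = 0 := by
    apply STAB_linY (k := k)
    rw [← q2]
    simp only [map_add, map_mul]
    ring
  obtain ⟨eyy, eyz, ezz⟩ := STAB_prod q3
  -- r1 = 0
  have hr : r1 = 0 := by
    apply STAB_r1 h2 hu' hr1 (c4 := u' ^ 2 + u ^ 5)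
    have e6 : l 0 ^ 4 * l 1 ^ 4 = (MvPolynomial.C u * (MvPolynomial.X 0 * MvPolynomial.X 1)) ^ 4 := by
      rw [← e1]; ring
    rw [e6] at e4
    simp only [map_add, map_pow] at e4 ⊢
    linear_combination e4
  subst hr
  -- the equation for e0
  have p3 := congrArg (STAB_psi k) e5
  have p01 := congrArg (STAB_psi k) e1
  simp only [map_add, map_mul, map_pow, map_zero] at p3 p01
  rw [STAB_psi_C, STAB_psi_x, STAB_psi_y] at p01
  rw [STAB_psi_C, STAB_psi_x, STAB_psi_y, STAB_psi_z] at p3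
  obtain ⟨P0, hP0⟩ : ∃ P0, P0 = STAB_psi k (l 0) := ⟨_, rfl⟩
  obtain ⟨P1, hP1⟩ : ∃ P1, P1 = STAB_psi k (l 1) := ⟨_, rfl⟩
  obtain ⟨P2, hP2⟩ : ∃ P2, P2 = STAB_psi k (l 2) := ⟨_, rfl⟩
  obtain ⟨R0, hR0⟩ : ∃ R0, R0 = STAB_psi k r0 := ⟨_, rfl⟩
  obtain ⟨T, hT⟩ : ∃ T, T = STAB_psi k s := ⟨_, rfl⟩
  obtain ⟨Lc, hLc⟩ : ∃ Lc, Lc = STAB_psi k (lsub L (cStd k)) := ⟨_, rfl⟩
  obtain ⟨cc, hcc⟩ : ∃ cc, cc = STAB_psi k (cStd k) := ⟨_, rfl⟩
  rw [← hP0, ← hP1] at p01
  rw [← hP0, ← hP1, ← hP2, ← hR0, ← hT, ← hLc, ← hcc] at p3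
  have hP0' := hpsil 0
  have hP1' := hpsil 1
  have hP2' := hpsil 2
  rw [← hP0] at hP0'
  rw [← hP1] at hP1'
  rw [← hP2] at hP2'
  have E : C (MvPolynomial.C (u' ^ 2) * MvPolynomial.X 1 ^ 9) * X + R0 ^ 2 +
      C (MvPolynomial.C u' * MvPolynomial.X 0 ^ 5) * R0 + P0 * P2 ^ 9 + P0 ^ 10 +
      X ^ 3 * (C (MvPolynomial.C u') ^ 2 * (X ^ 7 + C (MvPolynomial.X 0) ^ 3 * cc) +
        C (MvPolynomial.C u') * (X ^ 2 * R0) +
        C (MvPolynomial.C u) ^ 3 * C (MvPolynomial.X 0) ^ 3 * Lc +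
        C (MvPolynomial.C u) ^ 4 * X * C (MvPolynomial.X 0) ^ 4 * T) = 0 := by
    have w3 : P0 ^ 3 * P1 ^ 3 = (C (MvPolynomial.C u) * (X * C (MvPolynomial.X 0))) ^ 3 := by
      rw [← p01]; ring
    have w4 : P0 ^ 4 * P1 ^ 4 = (C (MvPolynomial.C u) * (X * C (MvPolynomial.X 0))) ^ 4 := by
      rw [← p01]; ring
    rw [w3, w4] at p3
    simp only [C_mul, C_pow, map_pow]
    linear_combination p3
  -- coefficient one of `E`
  obtain ⟨G, hG⟩ : ∃ G, G = (C (MvPolynomial.C u') ^ 2 * (X ^ 7 + C (MvPolynomial.X 0) ^ 3 * cc) +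
        C (MvPolynomial.C u') * (X ^ 2 * R0) +
        C (MvPolynomial.C u) ^ 3 * C (MvPolynomial.X 0) ^ 3 * Lc +
        C (MvPolynomial.C u) ^ 4 * X * C (MvPolynomial.X 0) ^ 4 * T) := ⟨_, rfl⟩
  rw [← hG] at E
  have E1 := congrArg (fun p => p.coeff 1) E
  have E2 := congrArg (fun p => p.coeff 2) E
  simp only [coeff_add, coeff_zero] at E1 E2
  rw [STAB_low _ (by norm_num), STAB_sq1 h2S, coeff_C_mul, coeff_C_mul, coeff_X_one] at E1
  rw [STAB_low _ (by norm_num), STAB_sq2 h2S, coeff_C_mul, coeff_C_mul, coeff_X_of_ne_one (by norm_num)] at E2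
  have h9 : (9 : k) = 1 := by linear_combination 4 * h2
  by_cases h00 : L 0 0 = 0
  · -- swapped case: contradiction
    exfalso
    rw [h00, zero_mul, zero_add] at exy
    have h02 : L 0 2 = 0 := by
      rw [h00, zero_mul, zero_add] at exz
      refine (mul_eq_zero.1 exz).resolve_left fun h => hu ?_
      rw [← exy, h, zero_mul]
    rw [h00, h02] at hP0'
    have hP0'' : P0 = C (MvPolynomial.C (L 0 1) * MvPolynomial.X 0) := by
      rw [hP0']; simp
    have c10 : (P0 ^ 10).coeff 1 = 0 := by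
      rw [hP0'', ← C_pow, coeff_C_succ]
    have c9 : (P0 * P2 ^ 9).coeff 1 = MvPolynomial.X 0 * (MvPolynomial.C (L 0 1) * (P2 ^ 9).coeff 1) := by
      rw [hP0'', coeff_C_mul]; ring
    rw [c10, c9] at E1
    have := STAB_D (u2 := u' ^ 2) (v := u') (rho := R0.coeff 1)
      (G := MvPolynomial.C (L 0 1) * (P2 ^ 9).coeff 1) (by linear_combination E1)
    exact hu' ((pow_eq_zero_iff (two_ne_zero)).1 this)
  -- the main case
  have h10 : L 1 0 = 0 := (mul_eq_zero.1 exx).resolve_left h00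
  rw [h10, zero_mul, add_zero] at exy exz
  have h11 : L 1 1 ≠ 0 := fun h => hu (by rw [← exy, h, mul_zero])
  have h12 : L 1 2 = 0 := (mul_eq_zero.1 exz).resolve_left h00
  have h01 : L 0 1 = 0 := (mul_eq_zero.1 eyy).resolve_right h11
  have h02 : L 0 2 = 0 := by
    rw [h01, zero_mul, zero_add] at eyz
    exact (mul_eq_zero.1 eyz).resolve_right h11
  rw [h01, h02] at hP0'
  have hP0'' : P0 = C (MvPolynomial.C (L 0 0)) * X := by rw [hP0']; simp
  have c10 : (P0 ^ 10).coeff 1 = 0 := by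
    rw [hP0'', mul_pow, ← C_pow, coeff_C_mul, coeff_X_pow]; simp
  have d10 : (P0 ^ 10).coeff 2 = 0 := by
    rw [hP0'', mul_pow, ← C_pow, coeff_C_mul, coeff_X_pow]; simp
  have c9 : (P0 * P2 ^ 9).coeff 1 = MvPolynomial.C (L 0 0) * (P2 ^ 9).coeff 0 := by
    rw [hP0'', mul_assoc, coeff_C_mul, coeff_X_mul]
  have d9 : (P0 * P2 ^ 9).coeff 2 = MvPolynomial.C (L 0 0) * (P2 ^ 9).coeff 1 := by
    rw [hP0'', mul_assoc, coeff_C_mul, coeff_X_mul]
  rw [c10, c9, hP2', STAB_lin0] at E1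
  obtain ⟨f1, f2⟩ := STAB_C (u2 := u' ^ 2) (v := u') (al := L 0 0) (ep := L 2 1) (nu := L 2 2)
    (rho := R0.coeff 1) (by linear_combination E1)
  have h22 : L 2 2 ≠ 0 := by
    intro h
    rw [h] at f1
    apply hu'
    have : u' ^ 2 = 0 := by linear_combination f1
    exact (pow_eq_zero_iff (two_ne_zero)).1 this
  have h21 : L 2 1 = 0 := by
    rw [h9, one_mul] at f2
    have h3 : L 0 0 * L 2 1 = 0 := (mul_eq_zero.1 f2).resolve_right (pow_ne_zero _ h22)
    exact (mul_eq_zero.1 h3).resolve_left h00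
  have hR1 : R0.coeff 1 = 0 := by
    rw [h21] at E1
    have h3 : MvPolynomial.C (u' ^ 2) + MvPolynomial.C (L 0 0) * MvPolynomial.C (L 2 2) ^ 9 =
        (0 : STAB_S k) := by
      rw [← map_pow, ← map_mul, ← map_add, f1, map_zero]
    have h4 : (MvPolynomial.C u' * MvPolynomial.X 0 ^ 5) * R0.coeff 1 = 0 := by
      have e0 : (MvPolynomial.C (0 : k) : STAB_S k) = 0 := map_zero _
      rw [e0] at E1
      linear_combination E1 - MvPolynomial.X 1 ^ 9 * h3
    refine (mul_eq_zero.1 h4).resolve_left (mul_ne_zero ?_ (pow_ne_zero _ (MvPolynomial.X_ne_zero 0)))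
    intro h0
    exact hu' ((map_eq_zero_iff _ (MvPolynomial.C_injective (Fin 2) k)).1 h0)
  have h20 : L 2 0 = 0 := by
    rw [d10, d9, hP2', STAB_lin1, h21, hR1] at E2
    have h3 := STAB_E (a := 9 * (L 0 0 * L 2 2 ^ 8 * L 2 0)) (v := u') (rho := R0.coeff 2) (m := 8) (by
      have e0 : (MvPolynomial.C (0 : k) : STAB_S k) = 0 := map_zero _
      rw [e0] at E2
      simp only [map_mul, map_pow, map_ofNat]
      push_cast at E2
      linear_combination E2)
    rw [h9, one_mul] at h3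
    rcases mul_eq_zero.1 h3 with h | h
    · rcases mul_eq_zero.1 h with h | h
      · exact absurd h h00
      · exact absurd h (pow_ne_zero _ h22)
    · exact h
  -- (iv)
  have l0 : l 0 = MvPolynomial.C (L 0 0) * MvPolynomial.X 0 := by rw [hl, h01, h02]; simp
  have l1 : l 1 = MvPolynomial.C (L 1 1) * MvPolynomial.X 1 := by rw [hl, h10, h12]; simp
  have l2 : l 2 = MvPolynomial.C (L 2 2) * MvPolynomial.X 2 := by rw [hl, h20, h21]; simp
  rw [lc, l0, l1, l2, dc, da] at e2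
  have p4 := congrArg (STAB_psi k) e2
  simp only [cStd, map_add, map_mul, map_pow] at p4
  rw [STAB_psi_x, STAB_psi_y, STAB_psi_z, STAB_psi_C, STAB_psi_C, STAB_psi_C, STAB_psi_C, ← hT] at p4
  have p5 : C (MvPolynomial.C (L 0 0 ^ 3 * L 2 2 + u ^ 2) * MvPolynomial.X 1) * X ^ 3 +
      C (MvPolynomial.C (L 0 0 * L 2 2 ^ 3 + u ^ 2) * MvPolynomial.X 1 ^ 3) * X +
      C (MvPolynomial.C (L 1 1 ^ 3 * L 2 2 + u ^ 2) * (MvPolynomial.X 0 ^ 3 * MvPolynomial.X 1) +
        MvPolynomial.C (L 1 1 * L 2 2 ^ 3 + u ^ 2) * (MvPolynomial.X 0 * MvPolynomial.X 1 ^ 3)) =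
      T ^ 2 + C (MvPolynomial.C u * MvPolynomial.X 0) * (X * T) := by
    have h2P : (2 : (STAB_S k)[X]) = 0 := STAB_char C h2S
    simp only [map_add, map_mul, map_pow] at p4 ⊢
    linear_combination p4 + (C (MvPolynomial.C u) ^ 2 * (C (MvPolynomial.X 1) * X ^ 3 +
      C (MvPolynomial.X 1) ^ 3 * X + C (MvPolynomial.X 0) ^ 3 * C (MvPolynomial.X 1) +
      C (MvPolynomial.X 0) * C (MvPolynomial.X 1) ^ 3)) * h2P
  have k0 := congrArg (fun p => p.coeff 0) p5
  have k1 := congrArg (fun p => p.coeff 1) p5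
  have k3 := congrArg (fun p => p.coeff 3) p5
  simp only [coeff_add] at k0 k1 k3
  rw [STAB_sq0, coeff_C_mul, coeff_C_mul, coeff_C_mul, coeff_X_mul_zero, coeff_C_zero, coeff_X_zero,
    coeff_X_pow, if_neg (by norm_num)] at k0
  rw [STAB_sq1 h2S, coeff_C_mul, coeff_C_mul, coeff_C_mul, coeff_X_mul, coeff_C_succ, coeff_X_one,
    coeff_X_pow, if_neg (by norm_num)] at k1
  rw [STAB_sq3 h2S, coeff_C_mul, coeff_C_mul, coeff_C_mul, coeff_X_mul, coeff_C_succ,
    coeff_X_of_ne_one (by norm_num), coeff_X_pow, if_pos rfl] at k3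
  obtain ⟨g1, g2⟩ := STAB_F h2 (a := L 1 1 ^ 3 * L 2 2 + u ^ 2) (b := L 1 1 * L 2 2 ^ 3 + u ^ 2)
    (g := T.coeff 0) (by linear_combination k0)
  have g3 := STAB_G (a := L 0 0 * L 2 2 ^ 3 + u ^ 2) (v := u) (g := T.coeff 0) (m := 3)
    (by linear_combination k1)
  have g4 := STAB_G (a := L 0 0 ^ 3 * L 2 2 + u ^ 2) (v := u) (g := T.coeff 2) (m := 1)
    (by linear_combination k3)
  have a1 : L 0 0 = L 2 2 := by
    apply STAB_sq_inj h2
    have : (L 0 0 * L 2 2) * (L 0 0 ^ 2 - L 2 2 ^ 2) = 0 := by linear_combination g4 - g3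
    rcases mul_eq_zero.1 this with h | h
    · exact absurd h (mul_ne_zero h00 h22)
    · linear_combination h
  have a2 : L 1 1 = L 2 2 := by
    apply STAB_sq_inj h2
    have : (L 1 1 * L 2 2) * (L 1 1 ^ 2 - L 2 2 ^ 2) = 0 := by linear_combination g1 - g2
    rcases mul_eq_zero.1 this with h | h
    · exact absurd h (mul_ne_zero h11 h22)
    · linear_combination h
  have a3 : u = L 2 2 ^ 2 := by
    apply STAB_sq_inj h2
    rw [a1] at g3
    linear_combination g3 - L 2 2 ^ 4 * h2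
  refine ⟨L 2 2, h22, ?_, a3, ?_⟩
  · intro i j
    fin_cases i <;> fin_cases j <;> simp [h01, h02, h10, h12, h20, h21, a1, a2]
  · have e7 : s * (s + MvPolynomial.C u * (MvPolynomial.X 0 * MvPolynomial.X 1)) = 0 := by
      rw [a1, a2] at e2
      unfold cStd at e2
      rw [a3] at e2 ⊢
      simp only [map_pow] at e2 ⊢
      linear_combination -e2
    rcases mul_eq_zero.1 e7 with h | h
    · left; exact h
    · right
      rw [da]
      linear_combination h - MvPolynomial.C u * (MvPolynomial.X 0 * MvPolynomial.X 1) * h2M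

end STABaux

end Pool.Agent.H1.CM
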